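import Pool.Agent.Helper842.SegMain

open Set Filter Topology MeasureTheory

namespace Pool.Agent.Results.MP_e9c934_an.SegmentNotRemovable

/-- Euclidean 3-space. -/
abbrev R3 := EuclideanSpace ℝ (Fin 3)

/-- `f` has bounded distortion on the open set `Ω`: it is locally Lipschitz on `Ω` (so it lies in
`W^{1,∞}_loc(Ω)`, hence in `W^{1,3}_loc(Ω)`), and for one finite constant `K`, at almost every
point `x` of `Ω`, `f` is differentiable and `|f'(x) h|`, over unit vectors `h`, lies between some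
`m > 0` and `K m`. -/
def BoundedDistortionOn (f : R3 → R3) (Ω : Set R3) : Prop :=
  LocallyLipschitzOn Ω f ∧
    ∃ K : ℝ, ∀ᵐ x ∂(volume.restrict Ω), DifferentiableAt ℝ f x ∧
      ∃ m : ℝ, 0 < m ∧ ∀ h : R3, m * ‖h‖ ≤ ‖fderiv ℝ f x h‖ ∧ ‖fderiv ℝ f x h‖ ≤ K * m * ‖h‖

/-- `I` is a removable singularity of `f` on `U \ I`: there is an open `V` with `I ⊆ V ⊆ U` such
that `f` is injective on `V \ I` and `f` restricted to `V \ I` extends to a homeomorphism of `V`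
onto an open set. -/
def IsRemovable (I U : Set R3) (f : R3 → R3) : Prop :=
  ∃ V : Set R3, IsOpen V ∧ I ⊆ V ∧ V ⊆ U ∧ InjOn f (V \ I) ∧
    ∃ g : OpenPartialHomeomorph R3 R3, g.source = V ∧ EqOn g f (V \ I)

/-- There are a nondegenerate closed segment `I = [a, b]` in `ℝ³` and a local homeomorphism
`f : ℝ³ \ I → ℝ³` of bounded distortion that is not injective on `V \ I` for any neighbourhood `V`
of any point of `I`; in particular `I` is not removable for `f` on `U \ I`, for any open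
`U ⊇ I`. -/
theorem result : ∃ (a b : R3) (f : R3 → R3), a ≠ b ∧
    IsLocalHomeomorphOn f (segment ℝ a b)ᶜ ∧
    BoundedDistortionOn f (segment ℝ a b)ᶜ ∧
    (∀ p ∈ segment ℝ a b, ∀ V ∈ 𝓝 p, ¬ InjOn f (V \ segment ℝ a b)) ∧
    ∀ U : Set R3, IsOpen U → segment ℝ a b ⊆ U → ¬ IsRemovable (segment ℝ a b) U f := by
  obtain ⟨h1, h2, h3, h4⟩ := Pool.Agent.Helper842.Seg.main
  have h5 : ∀ p ∈ segment ℝ (0 : R3) Pool.Agent.Helper842.Seg.e3, ∀ V ∈ 𝓝 p,
      ¬ InjOn Pool.Agent.Helper842.Seg.G (V \ segment ℝ 0 Pool.Agent.Helper842.Seg.e3) := by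
    intro p hp V hV hinj
    obtain ⟨y, hy, z, hz, hy', hz', hne, heq⟩ := h4 p hp V hV
    exact hne (hinj ⟨hy, hy'⟩ ⟨hz, hz'⟩ heq)
  refine ⟨0, Pool.Agent.Helper842.Seg.e3, Pool.Agent.Helper842.Seg.G,
    Pool.Agent.Helper842.Seg.e3_ne, h1, ⟨h2, h3⟩, h5, ?_⟩
  rintro U - - ⟨V, hV, hIV, -, hinj, -⟩
  exact h5 0 (left_mem_segment ℝ _ _) V (hV.mem_nhds (hIV (left_mem_segment ℝ _ _))) hinj

end Pool.Agent.Results.MP_e9c934_an.SegmentNotRemovable
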